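import Pool.Agent.TypBlk.EveryLin

/-!
# MP_21f43f_nt: small and large gaps in the blocks of every length, under RH

There is `κ > 0` such that for every `ε > 0` there is `C` such that for every `m ≥ 1` and all large
`N`, for all but at most `C m ^ (-1 + ε) N` of the `n ≤ N` the following holds for EVERY `a` in
`[0,1]` and EVERY `M ≥ m` with `M ≥ n ^ a`: of the `M` gaps `δ_k`, `n < k ≤ n + M`, at least
`κ M / m` are below `2 / (3 + a) + 0.0025` and at least `κ M / m` are above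
`max (1.89, 1.82 + 1.74 a)`.
-/

open Pool.Agent.ZetaGaps

theorem Pool.Agent.Results.MP_21f43f_nt.AlmostEveryBlock.result (hRH : RiemannHypothesis) :
    ∃ κ : ℝ, 0 < κ ∧ ∀ ε : ℝ, 0 < ε → ∃ C : ℝ, ∀ m : ℕ, 1 ≤ m → ∃ N₀ : ℕ, ∀ N : ℕ, N₀ ≤ N →
      ({n : ℕ | 1 ≤ n ∧ n ≤ N ∧ ¬ ∀ a : ℝ, 0 ≤ a → a ≤ 1 → ∀ M : ℕ, m ≤ M → (n : ℝ) ^ a ≤ M →
        κ * M ≤ m * ({k : ℕ | n < k ∧ k ≤ n + M ∧ gap k < 2 / (3 + a) + 0.0025}.ncard : ℝ) ∧
        κ * M ≤ m * ({k : ℕ | n < k ∧ k ≤ n + M ∧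
          max 1.89 (1.82 + 1.74 * a) < gap k}.ncard : ℝ)}.ncard : ℝ) ≤
        C * (m : ℝ) ^ (-1 + ε) * N := by
  obtain ⟨κ, hκ, h⟩ := Pool.Agent.TypBlk.every_blockL hRH
  have hcard : ∀ (P : ℕ → Prop) (n M : ℕ), {k : ℕ | n < k ∧ k ≤ n + M ∧ P k}.ncard =
      Pool.Agent.TypBlk.cntIoc P n M := by
    intro P n M
    classical
    unfold Pool.Agent.TypBlk.cntIoc
    rw [← Set.ncard_coe_finset]
    congr 1
    ext k
    simp [and_assoc]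
  refine ⟨κ, hκ, fun ε hε => ?_⟩
  obtain ⟨C, hC⟩ := h ε hε
  refine ⟨C, fun m hm => ?_⟩
  obtain ⟨N₀, hN₀⟩ := hC m hm
  refine ⟨N₀, fun N hN => ?_⟩
  have h' := hN₀ N hN
  simpa only [Pool.Agent.TypBlk.EvrL, hcard] using h'
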