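import Pool.Agent.AHP.LongC
import Pool.Agent.AHP.BlockB

/-!
# MP_21f43f_nt: small gaps or a lattice with its pair correlation, in every short interval, under RH

For all `0 < a ≤ 1` and `0 < ε ≤ 1/8` there are `δ > 0` and `T₀` such that for every `T ≥ T₀` and
every `H ≥ T ^ a`: of the normalised gaps `δ_n` with `N(T) < n ≤ N(T + H)` either a proportion at
least `δ` is smaller than `θ - δ`, `θ = 1 / (1 + a)`, or all but a proportion at most `ε` are within
`ε` of an integral multiple of `θ`. In the second case: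
* at least `1 - a - ε` of the gaps are within `ε` of `θ`;
* twice the proportion of the gaps within `ε` of `θ` plus the proportion of the gaps within `ε` of
  `2 θ` is at least `2 - a - ε`;
* for `1 ≤ k ≤ 1 / ε` let `r` be the number of the `n` for which some later normalised ordinate is at
  the distance `k θ` from the `n`-th one (up to `ε`), and, if `k = 1`, also the number of the gaps
  within `ε` of `θ`; let `c = 1 + 2 ∫_0^a u cos(2 π k θ u) du`. Up to `ε` (in units of the number of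
  zeros) `(1 + a) r` lies between `c + (-1)^k a (1 - a)` and
  `c + (-1)^k a (1 - a) cos(π min(1, k (1 - a) θ))`.
For `a = 1` these are the values of the Alternative Hypothesis.
-/

open Pool.Agent.ZetaGaps Real

theorem Pool.Agent.Results.MP_21f43f_nt.DichotomyShort.result (hRH : RiemannHypothesis)
    (a ε : ℝ) (ha : 0 < a) (ha1 : a ≤ 1) (hε : 0 < ε) (hε8 : ε ≤ 1 / 8) :
    ∃ δ : ℝ, 0 < δ ∧ ∃ T₀ : ℝ, ∀ T : ℝ, T₀ ≤ T → ∀ H : ℝ, T ^ a ≤ H →
      δ * ((zeroCount (T + H) : ℝ) - zeroCount T) ≤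
        ({n : ℕ | n ∈ Finset.Ioc (zeroCount T) (zeroCount (T + H)) ∧
          gap n < 1 / (1 + a) - δ}.ncard : ℝ) ∨
      (({n : ℕ | n ∈ Finset.Ioc (zeroCount T) (zeroCount (T + H)) ∧
          ∀ m : ℤ, ε < |gap n - m / (1 + a)|}.ncard : ℝ) ≤
        ε * ((zeroCount (T + H) : ℝ) - zeroCount T) ∧
       (1 - a - ε) * ((zeroCount (T + H) : ℝ) - zeroCount T) ≤
        ({n : ℕ | n ∈ Finset.Ioc (zeroCount T) (zeroCount (T + H)) ∧
          |gap n - 1 / (1 + a)| ≤ ε}.ncard : ℝ) ∧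
       (2 - a - ε) * ((zeroCount (T + H) : ℝ) - zeroCount T) ≤
        2 * ({n : ℕ | n ∈ Finset.Ioc (zeroCount T) (zeroCount (T + H)) ∧
          |gap n - 1 / (1 + a)| ≤ ε}.ncard : ℝ) +
        ({n : ℕ | n ∈ Finset.Ioc (zeroCount T) (zeroCount (T + H)) ∧
          |gap n - 2 / (1 + a)| ≤ ε}.ncard : ℝ) ∧
       ∀ k : ℕ, 1 ≤ k → k * ε ≤ 1 →
        ∀ c : ℝ, c = 1 + 2 * (∫ u in (0:ℝ)..a, u * cos (2 * π * k * u / (1 + a))) →
        ∀ r : ℝ, (r = ({n : ℕ | n ∈ Finset.Ioc (zeroCount T) (zeroCount (T + H)) ∧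
            ∃ m, n < m ∧ |normOrdinate m - normOrdinate n - k / (1 + a)| ≤ ε}.ncard : ℝ) ∨
          (k = 1 ∧ r = ({n : ℕ | n ∈ Finset.Ioc (zeroCount T) (zeroCount (T + H)) ∧
            |gap n - 1 / (1 + a)| ≤ ε}.ncard : ℝ))) →
        -ε * ((zeroCount (T + H) : ℝ) - zeroCount T) ≤
          a * (1 - a) * ((zeroCount (T + H) : ℝ) - zeroCount T) +
            (-1) ^ k * (c * ((zeroCount (T + H) : ℝ) - zeroCount T) - (1 + a) * r) ∧
        a * (1 - a) * ((zeroCount (T + H) : ℝ) - zeroCount T) +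
            (-1) ^ k * (c * ((zeroCount (T + H) : ℝ) - zeroCount T) - (1 + a) * r) ≤
          (a * (1 - a) * (1 - cos (π * min 1 (k * (1 - a) / (1 + a)))) + ε) *
            ((zeroCount (T + H) : ℝ) - zeroCount T)) := by
  have hB : Pool.Agent.AHP.BlockPCb a := by
    rcases lt_or_eq_of_le ha1 with h | h
    · exact Pool.Agent.AHP.block_b hRH ha h
    · rw [h]
      exact Pool.Agent.AHP.blockPCb_one hRH
  obtain ⟨δ, hδ, T₀, h⟩ := Pool.Agent.AHP.dichotomy_all_b hRH ha ha1 hε hε8 hB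
  refine ⟨δ, hδ, T₀, fun T hT H hH => ?_⟩
  rcases h T hT H hH with h1 | ⟨h1, h2, h3, h4⟩
  · exact Or.inl h1
  · refine Or.inr ⟨h1, h2, h3, ?_⟩
    have h5 := Pool.Agent.AHP.pcc_of_pcb ha h4
    rintro k hk hkε c rfl r (rfl | ⟨rfl, rfl⟩)
    · exact h5 k hk hkε _ (Or.inl rfl)
    · exact h5 1 hk hkε _ (Or.inr ⟨rfl, rfl⟩)
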