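import Pool.Agent.ZShort.LargePos3

/-!
# MP_21f43f_nt: a positive proportion of large gaps in every short interval, under RH

For all `0 < a ≤ 1` there is `κ > 0` such that, for all large `T` and all `H ≥ T ^ a`, at least
`κ (N(T + H) - N(T))` of the gaps between the zeros with ordinates in `(T, T + H]` are larger than
`1 + a + a ^ 2 + 0.58 * a ^ 3` (`3.58` if `a = 1`); and, for all large `N` and all `M ≥ N ^ a`, at
least `κ M` of the `M` gaps `δ_n`, `N < n ≤ N + M`.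
-/

open Pool.Agent.ZetaGaps

theorem Pool.Agent.Results.MP_21f43f_nt.LargeGapsEveryInterval.result (hRH : RiemannHypothesis)
    (a : ℝ) (ha : 0 < a) (ha1 : a ≤ 1) :
    ∃ κ : ℝ, 0 < κ ∧
      (∃ T₀ : ℝ, ∀ T H : ℝ, T₀ ≤ T → T ^ a ≤ H →
        κ * ((zeroCount (T + H) : ℝ) - zeroCount T) ≤
          ((({n ∈ Finset.Ioo (zeroCount T) (zeroCount (T + H)) |
            1 + a + a ^ 2 + 0.58 * a ^ 3 < gap n} : Finset ℕ).card : ℕ) : ℝ)) ∧
      (∃ N₀ : ℕ, ∀ N M : ℕ, N₀ ≤ N → (N : ℝ) ^ a ≤ M →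
        κ * M ≤ ((({n ∈ Finset.Ioc N (N + M) |
          1 + a + a ^ 2 + 0.58 * a ^ 3 < gap n} : Finset ℕ).card : ℕ) : ℝ)) :=
  Pool.Agent.ZShort.large_every3 hRH ha ha1
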