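import Pool.Agent.PF.Final
import Pool.Agent.RG.EveryR

/-!
# MP_21f43f_nt: every path of energy at most `4a` is followed in every short interval, under RH

`Frequent a P`: there is `κ > 0` such that, for all large `T` and all `H ≥ T ^ a`, at least
`κ (N(T + H) - N(T))` of the `n` with `N(T) < n < N(T + H)` have the property `P`, and, for all
large `N` and all `M ≥ N ^ a`, at least `κ M` of the `n` in `(N, N + M]` have the property `P`.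

Let `0 < a ≤ 1`. (1) If `f ∈ L²[0, 1]`, `∫ f² ≤ 4a` and `ε > 0`, then for all large `r` the property
`|δ_n + ⋯ + δ_{n+k-1} - k - √r ∫_0^{k/r} f| ≤ ε √r for all k ≤ r` is frequent. (2) For every `r ≥ 1`
`δ_n + ⋯ + δ_{n+r-1} > r + 0.92 m` and `δ_n + ⋯ + δ_{n+r-1} < r - 0.49 m` are frequent, where
`m = min (a r) √(a r)`; if `a = 1`, so is `δ_n + ⋯ + δ_{n+r-1} > r + 1.1 √r`.
-/

open Pool.Agent.ZetaGaps MeasureTheory

namespace Pool.Agent.Results.MP_21f43f_nt.PathsEveryInterval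

/-- A positive proportion of the indices in every interval `[T, T + H]`, `H ≥ T ^ a`, and in every
block `(N, N + M]`, `M ≥ N ^ a`, have the property `P` (`T` and `N` large). -/
def Frequent (a : ℝ) (P : ℕ → Prop) : Prop :=
  ∃ κ : ℝ, 0 < κ ∧
    (∃ T₀ : ℝ, ∀ T H : ℝ, T₀ ≤ T → T ^ a ≤ H →
      κ * ((zeroCount (T + H) : ℝ) - zeroCount T) ≤
        ({n : ℕ | zeroCount T < n ∧ n < zeroCount (T + H) ∧ P n}.ncard : ℝ)) ∧
    (∃ N₀ : ℕ, ∀ N M : ℕ, N₀ ≤ N → (N : ℝ) ^ a ≤ M →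
      κ * M ≤ ({n : ℕ | N < n ∧ n ≤ N + M ∧ P n}.ncard : ℝ))

lemma card_Ioo (A B : ℕ) (P : ℕ → Prop) [DecidablePred P] :
    {n : ℕ | A < n ∧ n < B ∧ P n}.ncard = ({n ∈ Finset.Ioo A B | P n} : Finset ℕ).card := by
  rw [← Set.ncard_coe_finset]
  congr 1
  ext n
  simp [and_assoc]

lemma card_Ioc (A B : ℕ) (P : ℕ → Prop) [DecidablePred P] :
    {n : ℕ | A < n ∧ n ≤ B ∧ P n}.ncard = ({n ∈ Finset.Ioc A B | P n} : Finset ℕ).card := by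
  rw [← Set.ncard_coe_finset]
  congr 1
  ext n
  simp [and_assoc]

theorem result (hRH : RiemannHypothesis) (a : ℝ) (ha : 0 < a) (ha1 : a ≤ 1) :
    (∀ ε : ℝ, 0 < ε → ∀ f : ℝ → ℝ, MemLp f 2 (volume.restrict (Set.Icc (0 : ℝ) 1)) →
      ∫ x in (0 : ℝ)..1, f x ^ 2 ≤ 4 * a →
      ∃ r₀ : ℕ, ∀ r : ℕ, r₀ ≤ r → Frequent a fun n => ∀ k : ℕ, k ≤ r →
        |∑ j ∈ Finset.range k, gap (n + j) - k - √r * ∫ x in (0 : ℝ)..(k / r), f x| ≤ ε * √r) ∧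
    (∀ r : ℕ, 1 ≤ r →
      (Frequent a fun n => (r : ℝ) + (if a = 1 then 1.1 * √r else 0.92 * min (a * r) √(a * r)) <
        ∑ j ∈ Finset.range r, gap (n + j)) ∧
      (Frequent a fun n => ∑ j ∈ Finset.range r, gap (n + j) <
        (r : ℝ) - 0.49 * min (a * r) √(a * r))) := by
  refine ⟨fun ε hε f hf hE => ?_, fun r hr => ?_⟩
  · obtain ⟨r0, h⟩ := Pool.Agent.PF.profiles hRH ha ha1 hε hf hE
    refine ⟨r0, fun r hr => ?_⟩
    obtain ⟨κ, hκ, ⟨T0, hT⟩, ⟨N0, hN⟩⟩ := h r hr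
    exact ⟨κ, hκ, ⟨T0, fun T H h1 h2 => by rw [card_Ioo]; exact hT T H h1 h2⟩,
      ⟨N0, fun N M h1 h2 => by rw [card_Ioc]; exact hN N M h1 h2⟩⟩
  · obtain ⟨κ, hκ, ⟨T0, hT⟩, ⟨N0, hN⟩⟩ := Pool.Agent.RG.rgaps_every hRH ha ha1 hr
    exact ⟨⟨κ, hκ, ⟨T0, fun T H h1 h2 => by rw [card_Ioo]; exact (hT T H h1 h2).1⟩,
      ⟨N0, fun N M h1 h2 => by rw [card_Ioc]; exact (hN N M h1 h2).1⟩⟩,
      ⟨κ, hκ, ⟨T0, fun T H h1 h2 => by rw [card_Ioo]; exact (hT T H h1 h2).2⟩,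
      ⟨N0, fun N M h1 h2 => by rw [card_Ioc]; exact (hN N M h1 h2).2⟩⟩⟩

end Pool.Agent.Results.MP_21f43f_nt.PathsEveryInterval
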